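import Pool.Agent.H19.BFL.Stmts3
import Pool.Agent.H39.BFL.Prob
import Pool.Agent.H80.BFL.REM
import Pool.Agent.H80.BFL.TRA
import Pool.Agent.H1.BFL.JTB
import Pool.Agent.H25.BFL.LJT

/-!
# Row JET: the jets at typical samples
-/

set_option autoImplicit false

namespace Pool.Agent.H89.BFL

open Finset Real
open Pool.Agent.H49.Ent Pool.Agent.H32.Dense Pool.STK Pool.KS3 Pool.BFL
open Pool.Agent.H39.BFL
open Pool.Agent.H36.KBX (bx mem_bx support_bx)

/-- The time inside a window is full given the line and the window. -/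
theorem win_time {Ω Λ : Type} [Fintype Ω] {q : Ω → ℝ} (hq : IsLaw q) (T : Ω → ℕ) (l : Ω → Λ)
    (J v : ℕ) (hv : v ≤ J) (hT : ∀ ω, T ω < 2 ^ J) (x : ℝ) (h : J * Real.log 2 - x ≤ CH q T l) :
    ((J : ℝ) - v) * Real.log 2 - x ≤
      CH q (fun ω => T ω % 2 ^ (J - v)) (fun ω => (l ω, T ω / 2 ^ (J - v))) := by
  have hq0 := hq.nonneg
  have h1 : H q (fun ω => (T ω, l ω)) ≤
      H q (fun ω => (T ω % 2 ^ (J - v), (l ω, T ω / 2 ^ (J - v)))) := by
    refine H_mono hq0 fun ω ω' _ _ h => ?_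
    simp only [Prod.mk.injEq] at h ⊢
    obtain ⟨h1, h2, h3⟩ := h
    refine ⟨?_, h2⟩
    rw [← Nat.div_add_mod (T ω) (2 ^ (J - v)), ← Nat.div_add_mod (T ω') (2 ^ (J - v)), h1, h3]
  have h2 : H q (fun ω => (l ω, T ω / 2 ^ (J - v))) ≤ H q l + H q (fun ω => T ω / 2 ^ (J - v)) :=
    subadd hq0 hq.sum_one fun _ _ _ _ h => h
  have h3 : H q (fun ω => T ω / 2 ^ (J - v)) ≤ v * Real.log 2 := by
    have h4 := H_le_log_card hq0 hq.sum_one (fun ω => T ω / 2 ^ (J - v)) (range (2 ^ v))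
      fun ω _ => by
        rw [mem_range]
        refine Nat.div_lt_of_lt_mul ?_
        rw [← pow_add, Nat.sub_add_cancel hv]
        exact hT ω
    rw [card_range, Nat.cast_pow, Real.log_pow, Nat.cast_ofNat] at h4
    exact h4
  unfold CH at h ⊢
  nlinarith only [h, h1, h2, h3]

/-- The axioms of a system are monotone in the error. -/
theorem ok_mono {n : ℕ} {D : Dat n} {K J r w₀ z M : ℕ} {κ κ' : ℝ} {q : D.Ω → ℝ}
    (h : D.Ok K J r w₀ z M κ q) (hκ : κ ≤ κ') : D.Ok K J r w₀ z M κ' q := by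
  have hz : κ * z ≤ κ' * z := mul_le_mul_of_nonneg_right hκ (Nat.cast_nonneg z)
  have he : Real.exp (κ * z) ≤ Real.exp (κ' * z) := Real.exp_le_exp.2 hz
  refine ⟨h.isLaw, h.r_le, h.top, h.T_lt, h.E_le, h.A_i₀, h.E_i₀, ?_, h.pt_T, h.pt_Y, h.c_pt,
    h.c_wn, h.c_c, h.c_T, ?_, h.F_deg, ?_, ?_, h.g_mono, ?_, ?_⟩
  · linarith only [hz, h, h.time]
  · intro k hk ω hω i
    exact (h.y₀_near k hk ω hω i).trans (div_le_div_of_nonneg_right he (by positivity))
  · intro k hk ω hω
    exact (h.F_hgt k hk ω hω).trans (div_le_div_of_nonneg_right he (by positivity))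
  · intro k hk ω hω b hb i
    exact (h.F_grad k hk ω hω b hb i).trans he
  · intro k hk
    exact (h.g_ge k hk).trans (by linarith only [hz])
  · obtain ⟨e, he0, he1, he2⟩ := h.nc
    refine ⟨e, he0, he1.trans hκ, fun ω hω u hu => ?_⟩
    refine (Pb_mono h.isLaw.nonneg fun ω' _ h' => ⟨h'.1, h'.2.trans ?_⟩).trans (he2 ω hω u hu)
    exact Real.exp_le_exp.2 (by linarith only [hz])

/-- Triangle inequality for the jets of differences. -/
theorem jt_tri {n : ℕ} (i : ℕ) (F G G' : Pl n) (y : Fin n → ℝ) (m : Fin n →₀ ℕ) :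
    |(jt i (F - G') y).coeff m| ≤ |(jt i (F - G) y).coeff m| + |(jt i (G - G') y).coeff m| := by
  have h : (jt i (F - G') y).coeff m = (jt i (F - G) y).coeff m + (jt i (G - G') y).coeff m := by
    rw [Pool.BFL.Tra.jt_sub, Pool.BFL.Tra.jt_sub, Pool.BFL.Tra.jt_sub, MvPolynomial.coeff_sub,
      MvPolynomial.coeff_sub, MvPolynomial.coeff_sub]
    ring
  rw [h]
  exact abs_add_le _ _

/-- The jets of the sheets of two levels. -/
theorem jt_chain {n : ℕ} (i : ℕ) (F : ℕ → Pl n) (y : Fin n → ℝ) (m : Fin n →₀ ℕ) (X : ℝ) :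
    ∀ d : ℕ, (∀ v < d, |(jt i (F (v + 1) - F v) y).coeff m| ≤ X) →
    |(jt i (F d - F 0) y).coeff m| ≤ d * X := by
  intro d
  induction d with
  | zero =>
    intro _
    rw [sub_self]
    have h : jt i (0 : Pl n) y = 0 := by
      have := Pool.BFL.Tra.jt_sub i (0 : Pl n) 0 y
      rw [sub_zero] at this
      have h2 : jt i (0 : Pl n) y = jt i (0 : Pl n) y - jt i (0 : Pl n) y := this
      rw [sub_self] at h2
      exact h2
    rw [h, MvPolynomial.coeff_zero, abs_zero]
    simp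
  | succ d ih =>
    intro h
    have h1 := ih fun v hv => h v (by omega)
    have h2 := h d (by omega)
    have h3 := jt_tri i (F (d + 1)) (F d) (F 0) y m
    push_cast
    linarith only [h1, h2, h3]

/-- A determined variable is a function. -/
theorem det_fun {Ω S T : Type} {q : Ω → ℝ} {X : Ω → S} {Y : Ω → T} [Nonempty T]
    (h : Det q X Y) : ∃ f : S → T, ∀ ω, 0 < q ω → f (X ω) = Y ω := by
  classical
  refine ⟨fun x => if hx : ∃ ω, 0 < q ω ∧ X ω = x then Y hx.choose else Classical.arbitrary T,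
    fun ω hω => ?_⟩
  have hx : ∃ ω', 0 < q ω' ∧ X ω' = X ω := ⟨ω, hω, rfl⟩
  show (if hx : ∃ ω', 0 < q ω' ∧ X ω' = X ω then Y hx.choose else Classical.arbitrary T) = Y ω
  rw [dif_pos hx]
  exact h _ _ hx.choose_spec.1 hω hx.choose_spec.2

/-- Remez inequality for the jets along the lines. -/
theorem rem_jets (hLJT : LJTStmt) (n K i : ℕ) : ∃ C : ℝ, 1 ≤ C ∧
    ∀ (D : Dat n) (J v : ℕ) (q : D.Ω → ℝ) (F : D.Λ × ℕ → Pl n) (Gd : D.Ω → Prop)
      (S₀ θ η : ℝ), IsLaw q → v ≤ J → (∀ ω, D.T ω < 2 ^ J) → (∀ x, (F x).totalDegree ≤ K) →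
      0 ≤ θ → 0 < η → η ≤ 1 → J * Real.log 2 - θ ≤ CH q D.T D.ln →
      Pb q (fun ω => ¬ Gd ω) ≤ η / 4 → 0 < S₀ → C * (θ + 1) / η ≤ ((J : ℝ) - v) * Real.log 2 →
      (∀ ω, Gd ω → CB (jt i (F (D.wn J v ω)) (D.Y J ω)) S₀) →
      Pb q (fun ω => ¬ ∀ t ∈ Set.Icc (0 : ℝ) 1, CB (jt i (F (D.wn J v ω)) (D.Yt J v ω t))
        (Real.exp (C * (θ + 1) / η) * S₀)) ≤ (bx n i).card * η := by
  classical
  obtain ⟨C, hC, hrem⟩ := Pool.BFL.Rem.rem_thm K
  refine ⟨C, hC, ?_⟩
  intro D J v q F Gd S₀ θ η hq hv hT hF hθ hη hη1 hCH hG hS₀ hN hGd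
  have hv0 : (0 : ℝ) < 2 ^ v := by positivity
  have hJv0 : (0 : ℝ) < 2 ^ (J - v) := by positivity
  have hJJ : (2 : ℝ) ^ J = 2 ^ (J - v) * 2 ^ v := by rw [← pow_add, Nat.sub_add_cancel hv]
  -- the polynomials in the time
  have hex : ∀ (m : Fin n →₀ ℕ) (x : D.Λ × ℕ), ∃ p : Polynomial ℝ, p.natDegree ≤ K ∧
      (∀ t, p.eval t = (jt i (F x) (fun l => (D.A x.1 l + (x.2 : ℝ) / 2 ^ v * D.E x.1 l) +
        t * D.E x.1 l)).coeff m) := by
    intro m x
    obtain ⟨p, h1, h2, _⟩ := hLJT n K i (F x)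
      (fun l => D.A x.1 l + (x.2 : ℝ) / 2 ^ v * D.E x.1 l) (D.E x.1) m (hF x)
    exact ⟨p, h1, h2⟩
  choose P hP1 hP2 using hex
  have hYt : ∀ ω (t : ℝ), (fun l => (D.A (D.wn J v ω).1 l + ((D.wn J v ω).2 : ℝ) / 2 ^ v *
      D.E (D.wn J v ω).1 l) + t / 2 ^ v * D.E (D.wn J v ω).1 l) = D.Yt J v ω t := by
    intro ω t
    funext l
    show (D.A (D.ln ω) l + ((D.T ω / 2 ^ (J - v) : ℕ) : ℝ) / 2 ^ v * D.E (D.ln ω) l) +
      t / 2 ^ v * D.E (D.ln ω) l =
      D.A (D.ln ω) l + (((D.T ω / 2 ^ (J - v) : ℕ) : ℝ) + t) / 2 ^ v * D.E (D.ln ω) l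
    ring
  have hY : ∀ ω, D.Yt J v ω (((D.T ω % 2 ^ (J - v) : ℕ) : ℝ) / ((2 ^ (J - v) : ℕ) : ℝ)) =
      D.Y J ω := by
    intro ω
    funext l
    show D.A (D.ln ω) l + (((D.T ω / 2 ^ (J - v) : ℕ) : ℝ) +
      ((D.T ω % 2 ^ (J - v) : ℕ) : ℝ) / ((2 ^ (J - v) : ℕ) : ℝ)) / 2 ^ v * D.E (D.ln ω) l =
      D.A (D.ln ω) l + (D.T ω : ℝ) / 2 ^ J * D.E (D.ln ω) l
    have h1 : (D.T ω : ℝ) = 2 ^ (J - v) * ((D.T ω / 2 ^ (J - v) : ℕ) : ℝ) +
        ((D.T ω % 2 ^ (J - v) : ℕ) : ℝ) := by
      have := Nat.div_add_mod (D.T ω) (2 ^ (J - v))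
      exact_mod_cast this.symm
    rw [h1, hJJ]
    push_cast
    field_simp
  -- Remez
  exact by
   have h1 : ∀ m : {m // m ∈ bx n i},
       Pb q (fun ω => ¬ ∀ t ∈ Set.Icc (0 : ℝ) 1,
         |((P m.1 (D.wn J v ω)).comp (Polynomial.C (1 / 2 ^ v) * Polynomial.X)).eval t| ≤
           Real.exp (C * (θ + 1) / η) * S₀) ≤ η := by
     intro m
     refine hrem D.Ω (D.Λ × ℕ) q (2 ^ (J - v)) (fun ω => D.T ω % 2 ^ (J - v)) (D.wn J v)
       (fun x => (P m.1 x).comp (Polynomial.C (1 / 2 ^ v) * Polynomial.X)) Gd (fun _ => S₀) θ η hq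
       (fun ω => Nat.mod_lt _ (by positivity)) (fun x => ?_) hθ hη hη1 ?_ hG (fun _ => hS₀) ?_ ?_
     · refine (Polynomial.natDegree_comp_le).trans ?_
       refine (Nat.mul_le_mul (hP1 m.1 x) ((Polynomial.natDegree_C_mul_le _ _).trans
         Polynomial.natDegree_X_le)).trans (le_of_eq (mul_one K))
     · rw [Nat.cast_pow, Real.log_pow, Nat.cast_ofNat, Nat.cast_sub hv]
       exact win_time hq D.T D.ln J v hv hT θ hCH
     · rw [Nat.cast_pow, Real.log_pow, Nat.cast_ofNat, Nat.cast_sub hv]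
       exact hN
     · intro ω hω
       have h2 := hGd ω hω m.1
       rw [Polynomial.eval_comp]
       simp only [Polynomial.eval_mul, Polynomial.eval_C, Polynomial.eval_X]
       rw [hP2]
       have h3 : (1 : ℝ) / 2 ^ v * (((D.T ω % 2 ^ (J - v) : ℕ) : ℝ) / ((2 ^ (J - v) : ℕ) : ℝ)) =
           ((D.T ω % 2 ^ (J - v) : ℕ) : ℝ) / ((2 ^ (J - v) : ℕ) : ℝ) / 2 ^ v := by
         field_simp
       rw [h3, hYt, hY]
       exact h2
   have h2 := Pb_ex hq.nonneg (fun (m : {m // m ∈ bx n i}) ω =>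
     ¬ ∀ t ∈ Set.Icc (0 : ℝ) 1,
         |((P m.1 (D.wn J v ω)).comp (Polynomial.C (1 / 2 ^ v) * Polynomial.X)).eval t| ≤
           Real.exp (C * (θ + 1) / η) * S₀) η h1
   rw [Fintype.card_coe] at h2
   exact by
    refine le_trans (Pb_mono hq.nonneg fun ω _ hω => ?_) h2
    by_contra hcon
    push Not at hcon
    apply hω
    intro t ht m
    by_cases hm : m ∈ bx n i
    · have h3 := hcon ⟨m, hm⟩ t ht
      rw [Polynomial.eval_comp] at h3
      simp only [Polynomial.eval_mul, Polynomial.eval_C, Polynomial.eval_X] at h3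
      rw [hP2] at h3
      have h4 : (1 : ℝ) / 2 ^ v * t = t / 2 ^ v := by ring
      rw [h4, hYt] at h3
      exact h3
    · have h3 : (jt i (F (D.wn J v ω)) (D.Yt J v ω t)).coeff m = 0 := by
        by_contra h4
        refine hm (support_bx _ ?_ (MvPolynomial.mem_support_iff.2 h4))
        exact (Pool.BFL.Tra.jt_homog _ _ _).totalDegree_le
      rw [h3, abs_zero]
      positivity

/-- Jets of a function of a closed label. -/
theorem cmr_jets (hCMR : CMRStmt) (n K : ℕ) (hn : 1 ≤ n) : ∃ C : ℝ, 1 ≤ C ∧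
    (∀ (F : Pl n) (y : Fin n → ℝ) (v : ℕ) (S : ℝ), F.totalDegree ≤ K →
      (∀ b : Fin n → ℝ, (∀ i, |b i - y i| ≤ 1 / 2 ^ v) → |MvPolynomial.eval b F| ≤ S) →
      ∀ i, CB (jt i F y) (C * S * 2 ^ (i * v))) ∧
    ∀ η : ℝ, 0 < η → η ≤ 1 → ∃ κ : ℝ, 0 < κ ∧ ∃ z₀ : ℕ,
    ∀ (J r w₀ z M : ℕ) (D : Dat n) (q : D.Ω → ℝ), z₀ ≤ z → D.Ok K J r w₀ z M κ q →
    ∀ k ≤ M, ∀ (φ : D.Γ → Pl n) (S₀ : ℝ),
      (∀ x, (φ x).totalDegree ≤ K) → 0 < S₀ →
      (∀ ω, 0 < q ω → |MvPolynomial.eval (D.Y J ω) (φ (D.c k ω))| ≤ S₀) →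
      Pb q (fun ω => ¬ ∀ i, CB (jt i (φ (D.c k ω)) (D.Y J ω))
        (C * (Real.exp z * S₀) * 2 ^ (i * (w₀ + k * z)))) ≤ η := by
  obtain ⟨C, hC, hJ⟩ := Pool.Agent.H1.BFL.jtb_thm n K
  have hJ' : ∀ (F : Pl n) (y : Fin n → ℝ) (v : ℕ) (S : ℝ), F.totalDegree ≤ K →
      (∀ b : Fin n → ℝ, (∀ i, |b i - y i| ≤ 1 / 2 ^ v) → |MvPolynomial.eval b F| ≤ S) →
      ∀ i, CB (jt i F y) (C * S * 2 ^ (i * v)) := by
    intro F y v S hF hb i m
    have h1 := hJ F y (1 / 2 ^ v) S hF (by positivity) hb i m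
    refine h1.trans (le_of_eq ?_)
    rw [div_pow, one_pow, div_div_eq_mul_div, div_one, ← pow_mul, mul_comm v i]
  refine ⟨C, hC, hJ', fun η hη hη1 => ?_⟩
  obtain ⟨κ, hκ, z₀, h⟩ := hCMR n K η hn hη hη1
  refine ⟨κ, hκ, z₀, ?_⟩
  intro J r w₀ z M D q hz hOk k hk φ S₀ hφ hS₀ hY
  have hq := hOk.isLaw
  have h1 := h J r w₀ z M D q hz hOk k hk φ (fun ω => 0 < q ω) (fun _ => S₀) hφ (fun _ => hS₀) (by
    have h2 : Pb q (fun ω => ¬ 0 < q ω) = 0 := by
      unfold Pb
      refine Finset.sum_eq_zero fun ω _ => ?_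
      split_ifs with h3
      · exact le_antisymm (not_lt.1 h3) (hq.nonneg ω)
      · rfl
    rw [h2]
    positivity) (fun ω hω => hY ω hω)
  refine (Pb_mono hq.nonneg fun ω _ hω hcon => hω fun i => ?_).trans h1
  refine hJ' _ _ _ _ (hφ _) (fun b hb => hcon b fun l => (hb l).trans ?_) i
  refine div_le_div_of_nonneg_right ?_ (by positivity)
  exact Real.one_le_exp (by positivity)

/-- Comparison of the scales. -/
theorem scale {g : ℕ → ℕ} {i j w₀ z k v' v : ℕ} {s C₁ : ℝ} (hC₁ : 0 ≤ C₁) (hs : (j : ℝ) ≤ s)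
    (h : |(g (k + v') : ℝ) - g k - s * (v' * z)| ≤ C₁ * z) (hv : v' ≤ v) :
    (2 : ℝ) ^ (i * (w₀ + (k + v') * z)) / 2 ^ g (k + v') ≤
      Real.exp (C₁ * z) * (2 ^ (i * (w₀ + k * z) + (i - j) * (v * z)) / 2 ^ g k) := by
  have hz : (0 : ℝ) ≤ z := Nat.cast_nonneg z
  have hl2 : 0 < Real.log 2 := Real.log_pos (by norm_num)
  have hl3 : Real.log 2 ≤ 1 := by
    have := Real.log_two_lt_d9
    linarith only [hl2, this]
  have e : ∀ m : ℕ, (2 : ℝ) ^ m = Real.exp (m * Real.log 2) := fun m => by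
    rw [mul_comm, Real.exp_mul, Real.exp_log (by norm_num), Real.rpow_natCast]
  rw [e, e, e, e, ← Real.exp_sub, ← Real.exp_sub, ← Real.exp_add]
  refine Real.exp_le_exp.2 ?_
  rw [abs_le] at h
  obtain ⟨x, hx⟩ : ∃ x : ℕ, x = i - j := ⟨_, rfl⟩
  have hx1 : (i : ℝ) - j ≤ x := by
    have : i ≤ x + j := by omega
    have : (i : ℝ) ≤ ((x + j : ℕ) : ℝ) := by exact_mod_cast this
    push_cast at this
    linarith only [this]
  rw [← hx]
  push_cast
  have hv' : (v' : ℝ) ≤ v := by exact_mod_cast hv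
  have hv0 : (0 : ℝ) ≤ v' := Nat.cast_nonneg _
  have hx0 : (0 : ℝ) ≤ x := Nat.cast_nonneg _
  have h0 : 0 ≤ (v' : ℝ) * z := by positivity
  have h1 : (i : ℝ) * (v' * z) - s * (v' * z) ≤ x * (v * z) := by
    have h2 : (i : ℝ) * (v' * z) - s * (v' * z) ≤ x * (v' * z) := by nlinarith only [hs, h0, hx1]
    have h3 : (x : ℝ) * (v' * z) ≤ x * (v * z) :=
      mul_le_mul_of_nonneg_left (mul_le_mul_of_nonneg_right hv' hz) hx0
    linarith only [h2, h3]
  have h2 : (i : ℝ) * (w₀ + (k + v') * z) - g (k + v') ≤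
      C₁ * z + (i * (w₀ + k * z) + x * (v * z) - g k) := by
    have h3 := h.1
    nlinarith only [h, h1]
  have h3 := mul_le_mul_of_nonneg_right h2 hl2.le
  have h4 : C₁ * z * Real.log 2 ≤ C₁ * z * 1 := mul_le_mul_of_nonneg_left hl3 (by positivity)
  linarith only [h3, h4]

theorem two_pow_le {K i z : ℕ} (hi : i ≤ K) : (2 : ℝ) ^ (i * z) ≤ Real.exp (K * z) := by
  have hl3 : Real.log 2 ≤ 1 := by
    have := Real.log_two_lt_d9
    linarith only [this]
  have e : ∀ m : ℕ, (2 : ℝ) ^ m = Real.exp (m * Real.log 2) := fun m => by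
    rw [mul_comm, Real.exp_mul, Real.exp_log (by norm_num), Real.rpow_natCast]
  rw [e]
  refine Real.exp_le_exp.2 ?_
  push_cast
  have h1 : (i : ℝ) ≤ K := by exact_mod_cast hi
  have h2 : (0 : ℝ) ≤ z := Nat.cast_nonneg z
  have h3 : (0 : ℝ) ≤ i := Nat.cast_nonneg i
  have h4 : (i : ℝ) * z * Real.log 2 ≤ i * z * 1 :=
    mul_le_mul_of_nonneg_left hl3 (by positivity)
  nlinarith only [h4, h1]

theorem bd0 {K i z w g : ℕ} {C κ : ℝ} (hi : i ≤ K) (hκ : κ ≤ 1)
    (hz : 2 * C ≤ Real.exp z) :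
    C * (Real.exp z * (2 * Real.exp (κ * z) / 2 ^ g)) * 2 ^ (i * (w + z)) ≤
      Real.exp ((K + 3) * z) * 2 ^ (i * w) / 2 ^ g := by
  have hz0 : (0 : ℝ) ≤ z := Nat.cast_nonneg z
  have h1 : Real.exp (κ * z) ≤ Real.exp z := Real.exp_le_exp.2 (by nlinarith only [hκ])
  have h2 := two_pow_le (z := z) hi
  have e1 : C * (Real.exp z * (2 * Real.exp (κ * z) / 2 ^ g)) * 2 ^ (i * (w + z)) =
      (2 * C) * Real.exp z * Real.exp (κ * z) * 2 ^ (i * z) * (2 ^ (i * w) / 2 ^ g) := by
    rw [mul_add, pow_add]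
    ring
  have e2 : Real.exp ((K + 3) * z) * 2 ^ (i * w) / 2 ^ g =
      Real.exp z * Real.exp z * Real.exp z * Real.exp (K * z) * (2 ^ (i * w) / 2 ^ g) := by
    rw [← Real.exp_add, ← Real.exp_add, ← Real.exp_add, mul_div_assoc]
    congr 2
    ring
  rw [e1, e2]
  refine mul_le_mul_of_nonneg_right ?_ (by positivity)
  refine mul_le_mul ?_ h2 (by positivity) (by positivity)
  refine mul_le_mul ?_ h1 (by positivity) (by positivity)
  exact mul_le_mul_of_nonneg_right hz (by positivity)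

theorem Pb_exs {Ω ι : Type} [Fintype Ω] {q : Ω → ℝ} (hq : ∀ w, 0 ≤ q w) (S : Finset ι)
    (A : ι → Ω → Prop) : Pb q (fun w => ∃ i ∈ S, A i w) ≤ ∑ i ∈ S, Pb q (A i) := by
  classical
  unfold Pb
  rw [Finset.sum_comm]
  refine Finset.sum_le_sum fun w _ => ?_
  have h2 : ∀ i ∈ S, 0 ≤ (if A i w then q w else 0) := fun i _ => by
    split_ifs
    exacts [hq w, le_rfl]
  by_cases h3 : ∃ i ∈ S, A i w
  · rw [if_pos h3]
    obtain ⟨i, hi, h4⟩ := h3
    have := Finset.single_le_sum h2 hi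
    rwa [if_pos h4] at this
  · rw [if_neg h3]
    exact Finset.sum_nonneg h2

/-- Row JET. -/
theorem jet_thm (hCMR : CMRStmt) : JETStmt := by
  classical
  intro n K j C₁ hn hC₁
  obtain ⟨CJ, hCJ, hJ, hM⟩ := cmr_jets hCMR n K hn
  have hR := fun i => rem_jets Pool.Agent.H25.BFL.ljt_thm n K i
  choose CR hCR hR using hR
  obtain ⟨CM, hCM⟩ : ∃ CM : ℝ, CM = ∑ i ∈ range (j + 1), CR i := ⟨_, rfl⟩
  have hCM1 : ∀ i ≤ j, CR i ≤ CM := by
    intro i hi
    rw [hCM]
    exact Finset.single_le_sum (f := CR) (fun i _ => by linarith only [hCR, hCR i])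
      (Finset.mem_range.2 (by omega))
  have hCM0 : 1 ≤ CM := (hCR 0).trans (hCM1 0 (Nat.zero_le j))
  have hK0 : (0 : ℝ) ≤ K := Nat.cast_nonneg K
  refine ⟨K + 2 * C₁ + 12, by linarith only [hC₁], ?_⟩
  intro B η hB hη hη1
  have hB0 : (0 : ℝ) ≤ B := Nat.cast_nonneg B
  obtain ⟨c, hc⟩ : ∃ c : ℝ, c = ∑ i ∈ range (j + 1), ((bx n i).card : ℝ) := ⟨_, rfl⟩
  have hc0 : 0 ≤ c := by
    rw [hc]
    exact Finset.sum_nonneg fun _ _ => Nat.cast_nonneg _
  obtain ⟨η₂, hη₂⟩ : ∃ η₂, η₂ = η / (2 * (c + 1)) := ⟨_, rfl⟩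
  have hη₂0 : 0 < η₂ := by rw [hη₂]; positivity
  have hη₂c : c * η₂ ≤ η / 2 := by
    rw [hη₂]
    have h1 : c * (η / (2 * (c + 1))) = η / 2 * (c / (c + 1)) := by
      field_simp
    rw [h1]
    have h2 : c / (c + 1) ≤ 1 := by
      rw [div_le_one (by linarith only [hc0])]
      linarith only
    nlinarith only [hη, h2]
  exact by
   have hη₂1 : η₂ ≤ η / 2 := by
     rw [hη₂]
     refine div_le_div_of_nonneg_left hη.le (by norm_num) ?_
     linarith only [hc0]
   obtain ⟨η₁, hη₁⟩ : ∃ η₁, η₁ = η₂ / (4 * (B + 1)) := ⟨_, rfl⟩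
   have hη₁0 : 0 < η₁ := by rw [hη₁]; positivity
   have hη₁B : (B + 1) * η₁ = η₂ / 4 := by
     rw [hη₁]
     field_simp
   have hη₁1 : η₁ ≤ 1 := by nlinarith only [hη1, hη₂0, hη₂1, hη₁B, hη₁0]
   obtain ⟨κM, hκM, zM, hM⟩ := hM η₁ hη₁0 hη₁1
   obtain ⟨zN, hzN⟩ := exists_nat_ge (4 * CM / η₂ + 2 * CJ + (B + 8))
   refine ⟨min κM (min 1 (η₂ / (4 * CM))), lt_min hκM (lt_min one_pos (by positivity)),
     max zM zN, ?_⟩
   intro J r w₀ z M k s D q Q Qb hz hOk hkM hjs hsK hHom hTube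
   obtain ⟨κ, hκ⟩ : ∃ κ, κ = min κM (min 1 (η₂ / (4 * CM))) := ⟨_, rfl⟩
   rw [← hκ] at hOk
   have hκ0 : 0 < κ := by
     rw [hκ]
     exact lt_min hκM (lt_min one_pos (by positivity))
   have hκ1 : κ ≤ κM := by rw [hκ]; exact min_le_left _ _
   have hκ2 : κ ≤ 1 := by rw [hκ]; exact (min_le_right _ _).trans (min_le_left _ _)
   have hκ3 : κ ≤ η₂ / (4 * CM) := by rw [hκ]; exact (min_le_right _ _).trans (min_le_right _ _)
   have hzM : zM ≤ z := (le_max_left _ _).trans hz
   have hzN' : 4 * CM / η₂ + 2 * CJ + (B + 8) ≤ z :=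
     hzN.trans (by exact_mod_cast (le_max_right _ _).trans hz)
   have hq := hOk.isLaw
   have hq0 := hq.nonneg
   have hz0 : (0 : ℝ) ≤ z := Nat.cast_nonneg z
   have hz8 : 8 ≤ (z : ℝ) := by
     have : 0 ≤ 4 * CM / η₂ := by positivity
     linarith only [hCJ, hη1, hη₂0, hη₂1, hzN', this]
   exact by
    have hexp := Real.add_one_le_exp (z : ℝ)
    have hzC : 2 * CJ ≤ Real.exp z := by
      have : 0 ≤ 4 * CM / η₂ := by positivity
      linarith only [hη1, hη₂0, hη₂1, hzN', hexp, this]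
    have hzB : (B : ℝ) ≤ Real.exp z := by
      have : 0 ≤ 4 * CM / η₂ := by positivity
      linarith only [hCJ, hη1, hη₂0, hη₂1, hzN', hexp, this]
    have hz4 : (4 : ℝ) ≤ Real.exp z := by linarith only [hη1, hη₂0, hη₂1, hz8, hexp]
    have hjK : j ≤ K := by
      have : (j : ℝ) ≤ K := hjs.trans hsK
      exact_mod_cast this
    have hΩ : Nonempty D.Ω := by
      by_contra hcon
      rw [not_nonempty_iff] at hcon
      have h1 := hq.sum_one
      rw [Finset.univ_eq_empty, Finset.sum_empty] at h1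
      exact zero_ne_one h1
    have hΓ : Nonempty D.Γ := ⟨D.c 0 hΩ.some⟩
    have hκe : Real.exp (κ * z) ≤ Real.exp z := Real.exp_le_exp.2 (by nlinarith only [hκ2])
    have hκC : Real.exp (κ * z) ≤ Real.exp (C₁ * z) := Real.exp_le_exp.2 (by nlinarith only [hC₁, hκ2])
    have hOkM := ok_mono hOk hκ1
    -- adjacent levels
    have hE0 : ∀ v < B, Pb q (fun ω => ¬ ∀ i, CB (jt i (D.F (k + v + 1) (D.c (k + v + 1) ω) -
        D.F (k + v) (D.c (k + v) ω)) (D.Y J ω))
        (CJ * (Real.exp z * (2 * Real.exp (κ * z) / 2 ^ D.g (k + v))) *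
          2 ^ (i * (w₀ + (k + v + 1) * z)))) ≤ η₁ := by
      intro v hv
      have hv1 : k + v < M := by omega
      obtain ⟨f, hf⟩ := det_fun (hOk.c_c (k + v) hv1)
      have h1 := hM J r w₀ z M D q hzM hOkM (k + v + 1) (by omega)
        (fun x => D.F (k + v + 1) x - D.F (k + v) (f x)) (2 * Real.exp (κ * z) / 2 ^ D.g (k + v))
        (fun x => (MvPolynomial.totalDegree_sub _ _).trans
          (max_le (hOk.F_deg _ _) (hOk.F_deg _ _))) (by positivity) (by
          intro ω hω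
          show |MvPolynomial.eval (D.Y J ω) (D.F (k + v + 1) (D.c (k + v + 1) ω) -
            D.F (k + v) (f (D.c (k + v + 1) ω)))| ≤ _
          rw [hf ω hω, map_sub]
          have h2 := hOk.F_hgt (k + v + 1) (by omega) ω hω
          have h3 := hOk.F_hgt (k + v) (by omega) ω hω
          have h4 : Real.exp (κ * z) / 2 ^ D.g (k + v + 1) ≤ Real.exp (κ * z) / 2 ^ D.g (k + v) :=
            div_le_div_of_nonneg_left (Real.exp_pos _).le (by positivity)
              (pow_le_pow_right₀ (by norm_num) (hOk.g_mono (by omega)))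
          unfold Dat.rh at h2 h3
          have h5 : 2 * Real.exp (κ * z) / 2 ^ D.g (k + v) =
            Real.exp (κ * z) / 2 ^ D.g (k + v) + Real.exp (κ * z) / 2 ^ D.g (k + v) := by ring
          rw [h5]
          rw [abs_le] at h2 h3 ⊢
          constructor <;> linarith only [h2, h3, h4, h2.1, h2.2, h3.1, h3.2])
      refine (Pb_mono hq0 fun ω hω hb hcon => hb fun i => ?_).trans h1
      have h2 := hcon i
      simp only [hf ω hω] at h2
      exact h2
    -- the finest level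
    exact by
     have hE2 : Pb q (fun ω => ¬ ∀ i, CB (jt i (Qb (D.c (k + B) ω) -
         D.F (k + B) (D.c (k + B) ω)) (D.Y J ω))
         (CJ * (Real.exp z * (2 * Real.exp (C₁ * z) / 2 ^ D.g (k + B))) *
           2 ^ (i * (w₀ + (k + B) * z)))) ≤ η₁ := by
       refine hM J r w₀ z M D q hzM hOkM (k + B) hkM
         (fun x => Qb x - D.F (k + B) x) (2 * Real.exp (C₁ * z) / 2 ^ D.g (k + B))
         (fun x => (MvPolynomial.totalDegree_sub _ _).trans
           (max_le (hTube.degb _) (hOk.F_deg _ _))) (by positivity) ?_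
       intro ω hω
       rw [map_sub]
       have h2 := hOk.F_hgt (k + B) hkM ω hω
       have h3 := hTube.hgt ω hω
       have h4 : Real.exp (κ * z) / 2 ^ D.g (k + B) ≤ Real.exp (C₁ * z) / 2 ^ D.g (k + B) :=
         div_le_div_of_nonneg_right hκC (by positivity)
       unfold Dat.rh at h2
       have h5 : 2 * Real.exp (C₁ * z) / 2 ^ D.g (k + B) =
         Real.exp (C₁ * z) / 2 ^ D.g (k + B) + Real.exp (C₁ * z) / 2 ^ D.g (k + B) := by ring
       rw [h5]
       rw [abs_le] at h2 h3 ⊢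
       constructor <;> linarith only [h2, h3, h4, h2.1, h2.2, h3.1, h3.2]
     -- good samples
     obtain ⟨Gd, hGd⟩ : ∃ Gd : D.Ω → Prop, Gd = fun ω => 0 < q ω ∧
         (∀ v < B, ∀ i, CB (jt i (D.F (k + v + 1) (D.c (k + v + 1) ω) -
           D.F (k + v) (D.c (k + v) ω)) (D.Y J ω))
           (CJ * (Real.exp z * (2 * Real.exp (κ * z) / 2 ^ D.g (k + v))) *
             2 ^ (i * (w₀ + (k + v + 1) * z)))) ∧
         (∀ i, CB (jt i (Qb (D.c (k + B) ω) - D.F (k + B) (D.c (k + B) ω)) (D.Y J ω))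
           (CJ * (Real.exp z * (2 * Real.exp (C₁ * z) / 2 ^ D.g (k + B))) *
             2 ^ (i * (w₀ + (k + B) * z)))) := ⟨_, rfl⟩
     have hPG : Pb q (fun ω => ¬ Gd ω) ≤ η₂ / 4 := by
       rw [← hη₁B, add_mul, one_mul]
       have h1 := Pb_ex hq0 (fun (v : Fin B) ω => ¬ ∀ i, CB (jt i (D.F (k + v + 1)
         (D.c (k + v + 1) ω) - D.F (k + v) (D.c (k + v) ω)) (D.Y J ω))
         (CJ * (Real.exp z * (2 * Real.exp (κ * z) / 2 ^ D.g (k + v))) *
           2 ^ (i * (w₀ + (k + v + 1) * z)))) η₁ (fun v => hE0 v v.2)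
       rw [Fintype.card_fin] at h1
       refine (Pb_mono hq0 fun ω hω hb => ?_).trans (Pb_or_le hq0 h1 hE2)
       rw [hGd] at hb
       by_contra hcon
       push Not at hcon
       exact hb ⟨hω, fun v hv => hcon.1 ⟨v, hv⟩, hcon.2⟩
     -- the bounds at good samples
     exact by
      have hb0 : ∀ ω, Gd ω → ∀ v < B, ∀ i ≤ K, CB (jt i (D.F (k + v + 1) (D.c (k + v + 1) ω) -
          D.F (k + v) (D.c (k + v) ω)) (D.Y J ω))
          (Real.exp ((K + 3) * z) * 2 ^ (i * (w₀ + (k + v) * z)) / 2 ^ D.g (k + v)) := by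
        intro ω hω v hv i hi m
        rw [hGd] at hω
        refine (hω.2.1 v hv i m).trans ?_
        have h1 : w₀ + (k + v + 1) * z = w₀ + (k + v) * z + z := by ring
        rw [h1]
        exact bd0 hi hκ2 hzC
      have hb1 : ∀ ω, Gd ω → ∀ v ≤ B, ∀ i ≤ K, CB (jt i (D.F (k + v) (D.c (k + v) ω) -
          D.F k (D.c k ω)) (D.Y J ω)) (Real.exp ((K + C₁ + 4) * z) *
            2 ^ (i * (w₀ + k * z) + (i - j) * (v * z)) / 2 ^ D.g k) := by
        intro ω hω v hv i hi m
        have h1 := jt_chain i (fun v => D.F (k + v) (D.c (k + v) ω)) (D.Y J ω) m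
          (Real.exp ((K + 3) * z) * (Real.exp (C₁ * z) *
            (2 ^ (i * (w₀ + k * z) + (i - j) * (v * z)) / 2 ^ D.g k))) v (by
            intro v' hv'
            refine (hb0 ω hω v' (by omega) i hi m).trans ?_
            rw [mul_div_assoc]
            exact mul_le_mul_of_nonneg_left (scale (by linarith only [hC₁, hη1, hη₂0, hη₂1]) hjs (hHom v' (by omega)) hv'.le)
              (Real.exp_pos _).le)
        simp only [add_zero] at h1
        refine h1.trans ?_
        have h2 : (v : ℝ) ≤ Real.exp z := (by exact_mod_cast hv : (v : ℝ) ≤ B).trans hzB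
        have h3 : Real.exp ((K + C₁ + 4) * z) * 2 ^ (i * (w₀ + k * z) + (i - j) * (v * z)) /
            2 ^ D.g k = Real.exp z * (Real.exp ((K + 3) * z) * (Real.exp (C₁ * z) *
            (2 ^ (i * (w₀ + k * z) + (i - j) * (v * z)) / 2 ^ D.g k))) := by
          have h5 : Real.exp ((K + C₁ + 4) * z) =
              Real.exp z * (Real.exp ((K + 3) * z) * Real.exp (C₁ * z)) := by
            rw [← Real.exp_add, ← Real.exp_add]
            congr 1
            ring
          rw [h5]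
          ring
        rw [h3]
        exact mul_le_mul_of_nonneg_right h2 (by positivity)
      exact by
       have hb2 : ∀ ω, Gd ω → ∀ i ≤ K, CB (jt i (Q (D.wn J (w₀ + k * z) ω) -
           D.F (k + B) (D.c (k + B) ω)) (D.Y J ω))
           (Real.exp ((C₁ + 3) * z) * 2 ^ (i * (w₀ + (k + B) * z)) / 2 ^ D.g (k + B)) := by
         intro ω hω i hi m
         rw [hGd] at hω
         have h1 := hω.2.2 i m
         have h2 := hJ (Q (D.wn J (w₀ + k * z) ω) - Qb (D.c (k + B) ω)) (D.Y J ω)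
           (w₀ + (k + B) * z) (Real.exp (C₁ * z) / 2 ^ D.g (k + B))
           ((MvPolynomial.totalDegree_sub _ _).trans (max_le (hTube.deg _) (hTube.degb _))) (by
             intro b hb
             rw [map_sub]
             exact hTube.agree ω hω.1 b hb) i m
         have h3 := jt_tri i (Q (D.wn J (w₀ + k * z) ω)) (Qb (D.c (k + B) ω))
           (D.F (k + B) (D.c (k + B) ω)) (D.Y J ω) m
         refine h3.trans ((add_le_add h2 h1).trans ?_)
         obtain ⟨X, hX⟩ : ∃ X : ℝ, X = Real.exp (C₁ * z) * 2 ^ (i * (w₀ + (k + B) * z)) /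
           2 ^ D.g (k + B) := ⟨_, rfl⟩
         have hX0 : 0 ≤ X := by rw [hX]; positivity
         have e1 : CJ * (Real.exp (C₁ * z) / 2 ^ D.g (k + B)) * 2 ^ (i * (w₀ + (k + B) * z)) +
             CJ * (Real.exp z * (2 * Real.exp (C₁ * z) / 2 ^ D.g (k + B))) *
               2 ^ (i * (w₀ + (k + B) * z)) = (CJ * (1 + 2 * Real.exp z)) * X := by
           rw [hX]
           ring
         have e2 : Real.exp ((C₁ + 3) * z) * 2 ^ (i * (w₀ + (k + B) * z)) / 2 ^ D.g (k + B) =
             (Real.exp z * Real.exp z * Real.exp z) * X := by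
           have h5 : Real.exp ((C₁ + 3) * z) =
               Real.exp z * Real.exp z * Real.exp z * Real.exp (C₁ * z) := by
             rw [← Real.exp_add, ← Real.exp_add, ← Real.exp_add]
             congr 1
             ring
           rw [hX, h5]
           ring
         rw [e1, e2]
         refine mul_le_mul_of_nonneg_right ?_ hX0
         have h4 : CJ * (1 + 2 * Real.exp z) ≤ (2 * CJ) * (2 * Real.exp z) := by nlinarith only [hCJ, hη1, hη₂1, hη₁0, hη₁B, hz8, hexp]
         have h5 : (2 * CJ) * (2 * Real.exp z) ≤ Real.exp z * (Real.exp z * Real.exp z) :=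
           mul_le_mul hzC (by nlinarith only [hz8, hexp]) (by positivity) (by positivity)
         nlinarith only [h4, h5]
       exact by
        have hb3 : ∀ ω, Gd ω → ∀ i ≤ j, CB (jt i (Q (D.wn J (w₀ + k * z) ω) - D.F k (D.c k ω))
            (D.Y J ω)) (Real.exp ((K + 2 * C₁ + 9) * z) * (2 ^ (i * (w₀ + k * z)) / 2 ^ D.g k)) := by
          intro ω hω i hi m
          have h1 := hb2 ω hω i (hi.trans hjK) m
          have h2 := hb1 ω hω B le_rfl i (hi.trans hjK) m
          have h3 := jt_tri i (Q (D.wn J (w₀ + k * z) ω)) (D.F (k + B) (D.c (k + B) ω))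
            (D.F k (D.c k ω)) (D.Y J ω) m
          have h4 := scale (g := D.g) (i := i) (w₀ := w₀) (by linarith only [hC₁, hη1, hη₂0, hη₂1]) hjs (hHom B le_rfl) le_rfl
          have h5 : i - j = 0 := by omega
          rw [h5, zero_mul, add_zero] at h2 h4
          obtain ⟨X, hX⟩ : ∃ X : ℝ, X = 2 ^ (i * (w₀ + k * z)) / 2 ^ D.g k := ⟨_, rfl⟩
          have hX0 : 0 ≤ X := by rw [hX]; positivity
          rw [mul_div_assoc] at h1 h2
          rw [← hX] at h2 h4 ⊢
          refine h3.trans ((add_le_add (h1.trans (mul_le_mul_of_nonneg_left h4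
            (Real.exp_pos _).le)) h2).trans ?_)
          rw [← mul_assoc, ← Real.exp_add, ← add_mul]
          refine mul_le_mul_of_nonneg_right ?_ hX0
          have h6 : Real.exp ((C₁ + 3) * z + C₁ * z) ≤ Real.exp ((K + 2 * C₁ + 4) * z) :=
            Real.exp_le_exp.2 (by nlinarith only [hη1, hη₂0, hη₂1, hz8])
          have h7 : Real.exp ((K + C₁ + 4) * z) ≤ Real.exp ((K + 2 * C₁ + 4) * z) :=
            Real.exp_le_exp.2 (by nlinarith only [hz8, hC₁])
          have h8 : Real.exp ((K + 2 * C₁ + 9) * z) =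
              Real.exp (5 * z) * Real.exp ((K + 2 * C₁ + 4) * z) := by
            rw [← Real.exp_add]
            congr 1
            ring
          have h9 : (2 : ℝ) ≤ Real.exp (5 * z) := by
            have := Real.add_one_le_exp (5 * (z : ℝ))
            linarith only [hη1, hη₂0, hη₂1, hz8, this]
          rw [h8]
          have h10 := mul_le_mul_of_nonneg_right h9 (Real.exp_pos ((K + 2 * C₁ + 4) * z)).le
          linarith only [h6, h7, h10]
        -- Remez along the lines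
        exact by
         have hkJ : w₀ + k * z + z ≤ J := by
           have h1 := hOk.top
           have h2 := hOk.r_le
           have h3 : k * z ≤ M * z := Nat.mul_le_mul_right z (by omega)
           have h4 : (M + 1) * z = M * z + z := by ring
           omega
         obtain ⟨f, hf⟩ := det_fun (hOk.c_wn k (by omega))
         have hlog : (0.5 : ℝ) ≤ Real.log 2 := by
           have := Real.log_two_gt_d9
           linarith only [hη1, hη₂0, hη₂1, this]
         have hexpm : ∀ i ≤ j, CR i * (κ * z + 1) / η₂ ≤ z / 2 := by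
           intro i hi
           have h0 := hCM1 i hi
           have h1 : CM * (κ * z) / η₂ ≤ z / 4 := by
             have h2 : κ * (4 * CM) ≤ η₂ := by
               rw [le_div_iff₀ (by positivity)] at hκ3
               exact hκ3
             rw [div_le_iff₀ hη₂0]
             nlinarith only [h2]
           have h2 : CM / η₂ ≤ z / 4 := by
             have h3 : 4 * CM / η₂ = 4 * (CM / η₂) := by ring
             linarith only [hCJ, hη1, hη₂0, hη₂1, hzN', h3]
           have h3 : CR i * (κ * z + 1) / η₂ ≤ CM * (κ * z + 1) / η₂ :=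
             div_le_div_of_nonneg_right (mul_le_mul_of_nonneg_right h0 (by positivity)) hη₂0.le
           have h4 : CM * (κ * z + 1) / η₂ = CM * (κ * z) / η₂ + CM / η₂ := by ring
           linarith only [h1, h2, h3, h4]
         have hE3 : ∀ i ≤ j, Pb q (fun ω => ¬ ∀ t ∈ Set.Icc (0 : ℝ) 1,
             CB (jt i (Q (D.wn J (w₀ + k * z) ω) - D.F k (D.c k ω)) (D.Yt J (w₀ + k * z) ω t))
               (Real.exp ((K + 2 * C₁ + 10) * z) * (2 ^ (i * (w₀ + k * z)) / 2 ^ D.g k))) ≤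
             (bx n i).card * η₂ := by
           intro i hi
           have h1 := hR i D J (w₀ + k * z) q (fun x => Q x - D.F k (f x)) Gd
             (Real.exp ((K + 2 * C₁ + 9) * z) * (2 ^ (i * (w₀ + k * z)) / 2 ^ D.g k)) (κ * z) η₂ hq
             (by omega) hOk.T_lt (fun x => (MvPolynomial.totalDegree_sub _ _).trans
               (max_le (hTube.deg _) (hOk.F_deg _ _))) (by positivity) hη₂0 (by linarith only [hη1, hη₂0, hη₂1]) hOk.time hPG
             (by positivity) (by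
               refine (hexpm i hi).trans ?_
               have h1 : (z : ℝ) ≤ (J : ℝ) - ((w₀ + k * z : ℕ) : ℝ) := by
                 have : ((w₀ + k * z + z : ℕ) : ℝ) ≤ J := by exact_mod_cast hkJ
                 push_cast at this ⊢
                 linarith only [this]
               nlinarith only [h1, hlog, hη1, hη₂0, hη₂1]) (by
               intro ω hω
               have h2 := hb3 ω hω i hi
               have h3 : 0 < q ω := by
                 rw [hGd] at hω
                 exact hω.1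
               rw [hf ω h3]
               exact h2)
           refine (Pb_mono hq0 fun ω hω hb hcon => hb fun t ht m => ?_).trans h1
           have h2 := hcon t ht m
           rw [hf ω hω] at h2
           refine h2.trans ?_
           rw [← mul_assoc]
           refine mul_le_mul_of_nonneg_right ?_ (by positivity)
           rw [← Real.exp_add]
           refine Real.exp_le_exp.2 ?_
           have h3 := hexpm i hi
           nlinarith only [hη1, hη₂0, hη₂1, hz8, h3]
         exact by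
          have hE4 : Pb q (fun ω => ∃ i ∈ range (j + 1), ¬ ∀ t ∈ Set.Icc (0 : ℝ) 1,
              CB (jt i (Q (D.wn J (w₀ + k * z) ω) - D.F k (D.c k ω)) (D.Yt J (w₀ + k * z) ω t))
                (Real.exp ((K + 2 * C₁ + 10) * z) * (2 ^ (i * (w₀ + k * z)) / 2 ^ D.g k))) ≤
              c * η₂ := by
            rw [hc, Finset.sum_mul]
            refine (Pb_exs hq0 _ _).trans (Finset.sum_le_sum fun i hi => hE3 i ?_)
            have := Finset.mem_range.1 hi
            omega
          -- conclusion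
          have hfin : Pb q (fun ω => ¬ D.JGd K J w₀ z B k j (K + 2 * C₁ + 12) Q ω) ≤
              η₂ / 4 + c * η₂ := by
            refine (Pb_mono hq0 fun ω hω hb => ?_).trans (Pb_or_le hq0 hPG hE4)
            by_contra hcon
            rw [not_or, not_not] at hcon
            obtain ⟨hG, h3⟩ := hcon
            push Not at h3
            refine hb ⟨?_, ?_, ?_, ?_⟩
            · intro v hv i hi m
              refine (hb0 ω hG v hv i hi m).trans ?_
              refine div_le_div_of_nonneg_right ?_ (by positivity)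
              exact mul_le_mul_of_nonneg_right (Real.exp_le_exp.2 (by nlinarith only [hz8, hC₁])) (by positivity)
            · intro v hv i hi m
              refine (hb1 ω hG v hv i hi m).trans ?_
              refine div_le_div_of_nonneg_right ?_ (by positivity)
              exact mul_le_mul_of_nonneg_right (Real.exp_le_exp.2 (by nlinarith only [hz8, hC₁])) (by positivity)
            · intro i hi m
              refine (hb2 ω hG i hi m).trans ?_
              refine div_le_div_of_nonneg_right ?_ (by positivity)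
              exact mul_le_mul_of_nonneg_right (Real.exp_le_exp.2 (by nlinarith only [hz8, hC₁])) (by positivity)
            · intro t ht i hi m
              have h4 := h3 i (Finset.mem_range.2 (by omega)) t ht m
              refine h4.trans ?_
              rw [mul_div_assoc]
              exact mul_le_mul_of_nonneg_right (Real.exp_le_exp.2 (by nlinarith only [hη1, hη₂0, hη₂1, hz8])) (by positivity)
          exact by
           refine hfin.trans ?_
           linarith only [hη₂0, hη₂c, hη₂1]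

end Pool.Agent.H89.BFL
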