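import Pool.Agent.H19.BFL.Stmts4

/-!
# Row RGR: random grids
-/

set_option autoImplicit false

namespace Pool.Agent.H89.BFL

open MeasureTheory Finset
open Pool.Agent.H49.Ent Pool.Agent.H32.Dense Pool.BFL Pool.K2S

theorem int_floor (x : ℝ) : ∫ θ in (0:ℝ)..1, ((⌊x + θ⌋ : ℤ) : ℝ) = x := by
  have h1 : ∫ θ in (0:ℝ)..1, ((⌊x + θ⌋ : ℤ) : ℝ) = ∫ u in x..(x+1), ((⌊u⌋ : ℤ) : ℝ) := by
    have := intervalIntegral.integral_comp_add_left (a := 0) (b := 1)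
      (fun u => ((⌊u⌋ : ℤ) : ℝ)) x
    rw [add_zero] at this
    exact this
  have hm : Monotone fun u : ℝ => ((⌊u⌋ : ℤ) : ℝ) := fun a b h => by
    show ((⌊a⌋ : ℤ) : ℝ) ≤ ((⌊b⌋ : ℤ) : ℝ)
    exact_mod_cast Int.floor_mono h
  have hi : ∀ a b : ℝ, IntervalIntegrable (fun u : ℝ => ((⌊u⌋ : ℤ) : ℝ)) volume a b :=
    fun a b => hm.intervalIntegrable
  have hid : ∀ a b : ℝ, IntervalIntegrable (fun u : ℝ => u) volume a b :=
    fun a b => continuous_id.intervalIntegrable a b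
  have h2 : ∀ a b : ℝ, ∫ u in a..b, ((⌊u⌋ : ℤ) : ℝ) = (∫ u in a..b, u) - ∫ u in a..b, Int.fract u := by
    intro a b
    rw [← intervalIntegral.integral_sub (hid a b)]
    · refine intervalIntegral.integral_congr fun u _ => ?_
      show ((⌊u⌋ : ℤ) : ℝ) = u - Int.fract u
      rw [Int.self_sub_fract]
    · have : (Int.fract : ℝ → ℝ) = fun u => u - ((⌊u⌋ : ℤ) : ℝ) := by
        funext u; rfl
      rw [this]
      exact (hid a b).sub (hi a b)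
  have h3 : ∫ u in x..(x+1), Int.fract u = ∫ u in (0:ℝ)..(0+1), Int.fract u :=
    Function.Periodic.intervalIntegral_add_eq (Int.fract_periodic ℝ) x 0
  have h4 : ∫ u in (0:ℝ)..(0+1), ((⌊u⌋ : ℤ) : ℝ) = 0 := by
    rw [zero_add]
    have : ∫ u in (0:ℝ)..1, ((⌊u⌋ : ℤ) : ℝ) = ∫ u in (0:ℝ)..1, (0:ℝ) := by
      refine intervalIntegral.integral_congr_ae ?_
      have h1 : ∀ᵐ u : ℝ, u ≠ 1 := by
        simp [ae_iff]
      filter_upwards [h1] with u hu hu2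
      rw [Set.uIoc_of_le zero_le_one] at hu2
      have : ⌊u⌋ = 0 := by
        rw [Int.floor_eq_iff]
        push_cast
        exact ⟨hu2.1.le, by rw [zero_add]; exact lt_of_le_of_ne hu2.2 hu⟩
      rw [this]
      simp
    rw [this]
    simp
  have h5 := h2 0 (0+1)
  rw [h4] at h5
  rw [h1, h2 x (x+1), h3]
  have h6 : ∫ u in (0:ℝ)..(0+1), Int.fract u = ∫ u in (0:ℝ)..(0+1), u := by linarith
  rw [h6]
  simp only [integral_id]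
  ring

theorem int_abs_floor (x y : ℝ) :
    ∫ θ in (0:ℝ)..1, |((⌊x + θ⌋ : ℤ) : ℝ) - ((⌊y + θ⌋ : ℤ) : ℝ)| = |x - y| := by
  have hi : ∀ x : ℝ, IntervalIntegrable (fun θ : ℝ => ((⌊x + θ⌋ : ℤ) : ℝ)) volume 0 1 := fun x => by
    have hm : Monotone fun u : ℝ => ((⌊x + u⌋ : ℤ) : ℝ) := fun a b h => by
      show ((⌊x + a⌋ : ℤ) : ℝ) ≤ ((⌊x + b⌋ : ℤ) : ℝ)
      exact_mod_cast Int.floor_mono (by linarith)
    exact hm.intervalIntegrable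
  wlog h : y ≤ x generalizing x y
  · have := this y x (le_of_not_ge h)
    rw [abs_sub_comm x y, ← this]
    refine intervalIntegral.integral_congr fun θ _ => ?_
    exact abs_sub_comm _ _
  · have h1 : ∫ θ in (0:ℝ)..1, |((⌊x + θ⌋ : ℤ) : ℝ) - ((⌊y + θ⌋ : ℤ) : ℝ)| =
        ∫ θ in (0:ℝ)..1, (((⌊x + θ⌋ : ℤ) : ℝ) - ((⌊y + θ⌋ : ℤ) : ℝ)) := by
      refine intervalIntegral.integral_congr fun θ _ => ?_
      refine abs_of_nonneg ?_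
      have : ⌊y + θ⌋ ≤ ⌊x + θ⌋ := Int.floor_mono (by linarith)
      have : ((⌊y + θ⌋ : ℤ) : ℝ) ≤ ((⌊x + θ⌋ : ℤ) : ℝ) := by exact_mod_cast this
      linarith
    rw [h1, intervalIntegral.integral_sub (hi x) (hi y), int_floor, int_floor, abs_of_nonneg (by linarith)]

/-- Row RGR. -/
theorem rgr_thm : RGRStmt := by
  classical
  intro Ω ι _ _ p A f f' d hp hd hf
  have hp0 := hp.nonneg
  have hi : ∀ x : ℝ, IntervalIntegrable (fun θ : ℝ => ((⌊x + θ⌋ : ℤ) : ℝ)) volume 0 1 := fun x => by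
    have hm : Monotone fun u : ℝ => ((⌊x + u⌋ : ℤ) : ℝ) := fun a b h => by
      show ((⌊x + a⌋ : ℤ) : ℝ) ≤ ((⌊x + b⌋ : ℤ) : ℝ)
      exact_mod_cast Int.floor_mono (by linarith)
    exact hm.intervalIntegrable
  have hg : ∀ x y : ℝ, IntervalIntegrable
      (fun θ : ℝ => |((⌊x + θ⌋ : ℤ) : ℝ) - ((⌊y + θ⌋ : ℤ) : ℝ)|) volume 0 1 :=
    fun x y => ((hi x).sub (hi y)).abs
  obtain ⟨G, hG⟩ : ∃ G : ℝ → ℝ, G = fun θ => ∑ ω, (if A ω then p ω else 0) *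
      ∑ i, |((⌊f i ω + θ⌋ : ℤ) : ℝ) - ((⌊f' i ω + θ⌋ : ℤ) : ℝ)| := ⟨_, rfl⟩
  have hs : ∀ ω, IntervalIntegrable
      (fun θ : ℝ => ∑ i, |((⌊f i ω + θ⌋ : ℤ) : ℝ) - ((⌊f' i ω + θ⌋ : ℤ) : ℝ)|) volume 0 1 := by
    intro ω
    have h1 := IntervalIntegrable.sum (μ := volume) (a := 0) (b := 1) (Finset.univ : Finset ι)
      (f := fun i (θ : ℝ) => |((⌊f i ω + θ⌋ : ℤ) : ℝ) - ((⌊f' i ω + θ⌋ : ℤ) : ℝ)|)
      (fun i _ => hg (f i ω) (f' i ω))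
    have h2 : (∑ i, fun θ : ℝ => |((⌊f i ω + θ⌋ : ℤ) : ℝ) - ((⌊f' i ω + θ⌋ : ℤ) : ℝ)|) =
        fun θ : ℝ => ∑ i, |((⌊f i ω + θ⌋ : ℤ) : ℝ) - ((⌊f' i ω + θ⌋ : ℤ) : ℝ)| := by
      funext θ
      rw [Finset.sum_apply]
    rw [h2] at h1
    exact h1
  have ht : ∀ ω, IntervalIntegrable (fun θ : ℝ => (if A ω then p ω else 0) *
      ∑ i, |((⌊f i ω + θ⌋ : ℤ) : ℝ) - ((⌊f' i ω + θ⌋ : ℤ) : ℝ)|) volume 0 1 :=
    fun ω => (hs ω).const_mul _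
  have hGi : IntervalIntegrable G volume 0 1 := by
    have h1 := IntervalIntegrable.sum (μ := volume) (a := 0) (b := 1) (Finset.univ : Finset Ω)
      (f := fun ω (θ : ℝ) => (if A ω then p ω else 0) *
      ∑ i, |((⌊f i ω + θ⌋ : ℤ) : ℝ) - ((⌊f' i ω + θ⌋ : ℤ) : ℝ)|) (fun ω _ => ht ω)
    have h2 : (∑ ω, fun θ : ℝ => (if A ω then p ω else 0) *
        ∑ i, |((⌊f i ω + θ⌋ : ℤ) : ℝ) - ((⌊f' i ω + θ⌋ : ℤ) : ℝ)|) = G := by
      rw [hG]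
      funext θ
      rw [Finset.sum_apply]
    rw [h2] at h1
    exact h1
  have hw0 : ∀ ω, 0 ≤ (if A ω then p ω else 0) := fun ω => by
    split_ifs
    exacts [hp0 ω, le_rfl]
  have hint : ∫ θ in (0:ℝ)..1, G θ ≤ (∑ i, d i) * Pe p A := by
    rw [hG]
    show ∫ θ in (0:ℝ)..1, ∑ ω, (if A ω then p ω else 0) *
        ∑ i, |((⌊f i ω + θ⌋ : ℤ) : ℝ) - ((⌊f' i ω + θ⌋ : ℤ) : ℝ)| ≤ _
    rw [intervalIntegral.integral_finsetSum fun ω _ => ht ω]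
    have h1 : ∀ ω, ∫ θ in (0:ℝ)..1, (if A ω then p ω else 0) *
        ∑ i, |((⌊f i ω + θ⌋ : ℤ) : ℝ) - ((⌊f' i ω + θ⌋ : ℤ) : ℝ)| =
        (if A ω then p ω else 0) * ∑ i, |f i ω - f' i ω| := by
      intro ω
      rw [intervalIntegral.integral_const_mul, intervalIntegral.integral_finsetSum
        fun i _ => hg (f i ω) (f' i ω)]
      congr 1
      exact Finset.sum_congr rfl fun i _ => int_abs_floor _ _
    rw [Finset.sum_congr rfl fun ω _ => h1 ω, Pe_eq, Finset.mul_sum]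
    refine Finset.sum_le_sum fun ω _ => ?_
    by_cases hA : A ω
    · rw [if_pos hA, mul_comm]
      exact mul_le_mul_of_nonneg_right (Finset.sum_le_sum fun i _ => hf i ω hA) (hp0 ω)
    · rw [if_neg hA]
      simp
  obtain ⟨θ, hθ, hθ2⟩ : ∃ θ ∈ Set.Ioo (0:ℝ) 1, G θ ≤ ∫ θ in (0:ℝ)..1, G θ := by
    have h1 := MeasureTheory.exists_le_setAverage (μ := volume) (s := Set.Ioo (0:ℝ) 1) (f := G)
      (by simp) (by simp) (by
        have := hGi.1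
        exact this.mono_set Set.Ioo_subset_Ioc_self)
    obtain ⟨θ, hθ, h2⟩ := h1
    refine ⟨θ, hθ, h2.trans (le_of_eq ?_)⟩
    rw [intervalIntegral.integral_of_le zero_le_one, integral_Ioc_eq_integral_Ioo,
      setAverage_eq]
    simp
  refine ⟨θ, hθ.1.le, hθ.2, ?_⟩
  refine le_trans ?_ (hθ2.trans hint)
  rw [hG, Pe_eq]
  refine Finset.sum_le_sum fun ω _ => ?_
  by_cases h : A ω ∧ ∃ i, ⌊f i ω + θ⌋ ≠ ⌊f' i ω + θ⌋
  · rw [if_pos h, if_pos h.1]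
    obtain ⟨i, hi⟩ := h.2
    have h1 : (1:ℝ) ≤ |((⌊f i ω + θ⌋ : ℤ) : ℝ) - ((⌊f' i ω + θ⌋ : ℤ) : ℝ)| := by
      have h2 : (1:ℤ) ≤ |⌊f i ω + θ⌋ - ⌊f' i ω + θ⌋| :=
        Int.one_le_abs (sub_ne_zero.2 hi)
      have h3 : ((1:ℤ):ℝ) ≤ ((|⌊f i ω + θ⌋ - ⌊f' i ω + θ⌋| : ℤ) : ℝ) := by exact_mod_cast h2
      push_cast at h3
      exact h3
    have h2 : (1:ℝ) ≤ ∑ i, |((⌊f i ω + θ⌋ : ℤ) : ℝ) - ((⌊f' i ω + θ⌋ : ℤ) : ℝ)| :=
      h1.trans (Finset.single_le_sum (f := fun i => |((⌊f i ω + θ⌋ : ℤ) : ℝ) -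
        ((⌊f' i ω + θ⌋ : ℤ) : ℝ)|) (fun _ _ => abs_nonneg _) (Finset.mem_univ i))
    have h3 := mul_le_mul_of_nonneg_left h2 (hp0 ω)
    rw [mul_one] at h3
    exact h3
  · rw [if_neg h]
    exact mul_nonneg (hw0 ω) (Finset.sum_nonneg fun _ _ => abs_nonneg _)

end Pool.Agent.H89.BFL
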